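import Mathlib

set_option autoImplicit false

/-!
Valued fields as three-sorted structures, prenex sentences with standard quantifier patterns, and
the corresponding fragments of theories.
-/

namespace Pool.Agent.Lib.MP_65f174_lc

/-! ### Valued fields -/

/-- A valued field: a field `K`, a linearly ordered abelian group `G` (the value group) and a
surjective (additive) valuation `v : K → G ∪ {∞}`. -/
structure ValuedField where
  /-- the field -/
  K : Type
  /-- the value group -/
  G : Type
  [fieldK : Field K]
  [groupG : AddCommGroup G]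
  [orderG : LinearOrder G]
  [orderedG : IsOrderedAddMonoid G]
  /-- the valuation -/
  v : AddValuation K (WithTop G)
  surj : ∀ g : G, ∃ x : K, v x = (g : WithTop G)

attribute [instance] ValuedField.fieldK ValuedField.groupG ValuedField.orderG
  ValuedField.orderedG

/-- The valuation ring `{x | v x ≥ 0}`. -/
def ValuedField.ring (F : ValuedField) : ValuationSubring F.K where
  carrier := {x | 0 ≤ F.v x}
  mul_mem' {x y} hx hy := by
    change 0 ≤ F.v (x * y)
    rw [AddValuation.map_mul]
    exact add_nonneg hx hy
  one_mem' := by
    change 0 ≤ F.v 1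
    rw [AddValuation.map_one]
  add_mem' {x y} hx hy := by
    change 0 ≤ F.v (x + y)
    exact le_trans (le_min hx hy) (AddValuation.map_add F.v x y)
  zero_mem' := by
    change 0 ≤ F.v 0
    rw [AddValuation.map_zero]
    exact le_top
  neg_mem' {x} hx := by
    change 0 ≤ F.v (-x)
    rw [AddValuation.map_neg]
    exact hx
  mem_or_inv_mem' x := by
    change 0 ≤ F.v x ∨ 0 ≤ F.v x⁻¹
    rcases eq_or_ne x 0 with rfl | hx
    · left
      rw [AddValuation.map_zero]
      exact le_top
    · rcases le_total 0 (F.v x) with h | h
      · exact Or.inl h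
      · right
        have h1 : F.v x + F.v x⁻¹ = 0 := by
          rw [← AddValuation.map_mul, mul_inv_cancel₀ hx, AddValuation.map_one]
        by_contra h2
        rw [not_le] at h2
        have h3 : F.v x + F.v x⁻¹ < 0 := by
          calc F.v x + F.v x⁻¹ ≤ 0 + F.v x⁻¹ := by gcongr
            _ = F.v x⁻¹ := zero_add _
            _ < 0 := h2
        exact absurd h1 h3.ne

/-- The residue field. -/
abbrev ValuedField.Res (F : ValuedField) : Type := IsLocalRing.ResidueField F.ring

open Classical in
/-- The residue map, extended by `0` outside the valuation ring. -/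
noncomputable def ValuedField.res (F : ValuedField) (x : F.K) : F.Res :=
  if h : x ∈ F.ring then IsLocalRing.residue F.ring ⟨x, h⟩ else 0

/-- Henselian: the valuation ring is a henselian local ring. -/
def ValuedField.IsHenselian (F : ValuedField) : Prop := HenselianLocalRing F.ring

/-- Nontrivially valued. -/
def ValuedField.IsNontrivial (F : ValuedField) : Prop := Nontrivial F.G

/-- Equicharacteristic zero. -/
def ValuedField.IsEquicharZero (F : ValuedField) : Prop := CharZero F.K ∧ CharZero F.Res

/-- A uniformizer: an element of smallest positive (finite) value. -/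
def ValuedField.IsUniformizer (F : ValuedField) (π : F.K) : Prop :=
  0 < F.v π ∧ F.v π ≠ ⊤ ∧ ∀ x : F.K, 0 < F.v x → F.v π ≤ F.v x

/-! ### The three-sorted language of valued fields with a constant for a uniformizer -/

/-- Terms of the field sort, in `a` field variables: ring language and the constant `ϖ`. -/
inductive FTerm (a : ℕ) : Type
  | var : Fin a → FTerm a
  | zero : FTerm a
  | one : FTerm a
  | unif : FTerm a
  | neg : FTerm a → FTerm a
  | add : FTerm a → FTerm a → FTerm a
  | mul : FTerm a → FTerm a → FTerm a

/-- Terms of the residue field sort, in `a` field and `b` residue variables: ring language and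
the residue map applied to field terms. -/
inductive RTerm (a b : ℕ) : Type
  | var : Fin b → RTerm a b
  | zero : RTerm a b
  | one : RTerm a b
  | neg : RTerm a b → RTerm a b
  | add : RTerm a b → RTerm a b → RTerm a b
  | mul : RTerm a b → RTerm a b → RTerm a b
  | res : FTerm a → RTerm a b

/-- Terms of the value group sort, in `a` field and `c` value group variables: language of
ordered abelian groups, the symbol `∞`, and the valuation applied to field terms. -/
inductive GTerm (a c : ℕ) : Type
  | var : Fin c → GTerm a c
  | zero : GTerm a c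
  | infty : GTerm a c
  | add : GTerm a c → GTerm a c → GTerm a c
  | val : FTerm a → GTerm a c

/-- Quantifier-free formulas of the three-sorted language. -/
inductive QF (a b c : ℕ) : Type
  | eqF : FTerm a → FTerm a → QF a b c
  | eqR : RTerm a b → RTerm a b → QF a b c
  | eqG : GTerm a c → GTerm a c → QF a b c
  | ltG : GTerm a c → GTerm a c → QF a b c
  | not : QF a b c → QF a b c
  | and : QF a b c → QF a b c → QF a b c
  | or : QF a b c → QF a b c → QF a b c

/-- Prenex formulas with `a`, `b`, `c` free variables of the field, residue and value group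
sorts; quantifiers range over any of the three sorts. -/
inductive Prenex : ℕ → ℕ → ℕ → Type
  | qf {a b c : ℕ} : QF a b c → Prenex a b c
  | exF {a b c : ℕ} : Prenex (a + 1) b c → Prenex a b c
  | exR {a b c : ℕ} : Prenex a (b + 1) c → Prenex a b c
  | exG {a b c : ℕ} : Prenex a b (c + 1) → Prenex a b c
  | allF {a b c : ℕ} : Prenex (a + 1) b c → Prenex a b c
  | allR {a b c : ℕ} : Prenex a (b + 1) c → Prenex a b c
  | allG {a b c : ℕ} : Prenex a b (c + 1) → Prenex a b c

/-- Value of a field term in `(F, π)`. -/
def FTerm.eval (F : ValuedField) (π : F.K) {a : ℕ} (e : Fin a → F.K) : FTerm a → F.K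
  | .var i => e i
  | .zero => 0
  | .one => 1
  | .unif => π
  | .neg t => -(t.eval F π e)
  | .add t u => t.eval F π e + u.eval F π e
  | .mul t u => t.eval F π e * u.eval F π e

/-- Value of a residue term in `(F, π)`. -/
noncomputable def RTerm.eval (F : ValuedField) (π : F.K) {a b : ℕ} (e : Fin a → F.K)
    (r : Fin b → F.Res) : RTerm a b → F.Res
  | .var i => r i
  | .zero => 0
  | .one => 1
  | .neg t => -(t.eval F π e r)
  | .add t u => t.eval F π e r + u.eval F π e r
  | .mul t u => t.eval F π e r * u.eval F π e r
  | .res t => F.res (t.eval F π e)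

/-- Value of a value group term in `(F, π)`; the sort is `G ∪ {∞}`. -/
def GTerm.eval (F : ValuedField) (π : F.K) {a c : ℕ} (e : Fin a → F.K)
    (g : Fin c → WithTop F.G) : GTerm a c → WithTop F.G
  | .var i => g i
  | .zero => 0
  | .infty => ⊤
  | .add t u => t.eval F π e g + u.eval F π e g
  | .val t => F.v (t.eval F π e)

/-- Truth of a quantifier-free formula in `(F, π)`. -/
def QF.Holds (F : ValuedField) (π : F.K) {a b c : ℕ} (e : Fin a → F.K) (r : Fin b → F.Res)
    (g : Fin c → WithTop F.G) : QF a b c → Prop
  | .eqF t u => t.eval F π e = u.eval F π e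
  | .eqR t u => t.eval F π e r = u.eval F π e r
  | .eqG t u => t.eval F π e g = u.eval F π e g
  | .ltG t u => t.eval F π e g < u.eval F π e g
  | .not φ => ¬ φ.Holds F π e r g
  | .and φ ψ => φ.Holds F π e r g ∧ ψ.Holds F π e r g
  | .or φ ψ => φ.Holds F π e r g ∨ ψ.Holds F π e r g

/-- Truth of a prenex formula in `(F, π)`. -/
def Prenex.Holds (F : ValuedField) (π : F.K) : {a b c : ℕ} → Prenex a b c →
    (Fin a → F.K) → (Fin b → F.Res) → (Fin c → WithTop F.G) → Prop
  | _, _, _, .qf φ, e, r, g => φ.Holds F π e r g
  | _, _, _, .exF φ, e, r, g => ∃ x : F.K, φ.Holds F π (Fin.cons x e) r g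
  | _, _, _, .exR φ, e, r, g => ∃ x : F.Res, φ.Holds F π e (Fin.cons x r) g
  | _, _, _, .exG φ, e, r, g => ∃ x : WithTop F.G, φ.Holds F π e r (Fin.cons x g)
  | _, _, _, .allF φ, e, r, g => ∀ x : F.K, φ.Holds F π (Fin.cons x e) r g
  | _, _, _, .allR φ, e, r, g => ∀ x : F.Res, φ.Holds F π e (Fin.cons x r) g
  | _, _, _, .allG φ, e, r, g => ∀ x : WithTop F.G, φ.Holds F π e r (Fin.cons x g)

/-- The quantifier word of a prenex formula, outermost first; `true` is `∃`, `false` is `∀`. -/
def Prenex.word : {a b c : ℕ} → Prenex a b c → List Bool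
  | _, _, _, .qf _ => []
  | _, _, _, .exF φ => true :: φ.word
  | _, _, _, .exR φ => true :: φ.word
  | _, _, _, .exG φ => true :: φ.word
  | _, _, _, .allF φ => false :: φ.word
  | _, _, _, .allR φ => false :: φ.word
  | _, _, _, .allG φ => false :: φ.word

/-! ### The (one-sorted) language of rings -/

/-- Terms of the ring language in `a` variables. -/
inductive RingTerm (a : ℕ) : Type
  | var : Fin a → RingTerm a
  | zero : RingTerm a
  | one : RingTerm a
  | neg : RingTerm a → RingTerm a
  | add : RingTerm a → RingTerm a → RingTerm a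
  | mul : RingTerm a → RingTerm a → RingTerm a

/-- Quantifier-free formulas of the ring language. -/
inductive RingQF (a : ℕ) : Type
  | eq : RingTerm a → RingTerm a → RingQF a
  | not : RingQF a → RingQF a
  | and : RingQF a → RingQF a → RingQF a
  | or : RingQF a → RingQF a → RingQF a

/-- Prenex formulas of the ring language. -/
inductive RingPrenex : ℕ → Type
  | qf {a : ℕ} : RingQF a → RingPrenex a
  | ex {a : ℕ} : RingPrenex (a + 1) → RingPrenex a
  | all {a : ℕ} : RingPrenex (a + 1) → RingPrenex a

/-- Value of a ring term. -/
def RingTerm.eval {R : Type} [CommRing R] {a : ℕ} (e : Fin a → R) : RingTerm a → R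
  | .var i => e i
  | .zero => 0
  | .one => 1
  | .neg t => -(t.eval e)
  | .add t u => t.eval e + u.eval e
  | .mul t u => t.eval e * u.eval e

/-- Truth of a quantifier-free ring formula. -/
def RingQF.Holds {R : Type} [CommRing R] {a : ℕ} (e : Fin a → R) : RingQF a → Prop
  | .eq t u => t.eval e = u.eval e
  | .not φ => ¬ φ.Holds e
  | .and φ ψ => φ.Holds e ∧ ψ.Holds e
  | .or φ ψ => φ.Holds e ∨ ψ.Holds e

/-- Truth of a prenex ring formula. -/
def RingPrenex.Holds (R : Type) [CommRing R] : {a : ℕ} → RingPrenex a → (Fin a → R) → Prop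
  | _, .qf φ, e => φ.Holds e
  | _, .ex φ, e => ∃ x : R, φ.Holds R (Fin.cons x e)
  | _, .all φ, e => ∀ x : R, φ.Holds R (Fin.cons x e)

/-- The quantifier word of a prenex ring formula. -/
def RingPrenex.word : {a : ℕ} → RingPrenex a → List Bool
  | _, .qf _ => []
  | _, .ex φ => true :: φ.word
  | _, .all φ => false :: φ.word

/-! ### Standard fragments -/

/-- The block pattern of the `n`-th standard fragment: `n` alternating quantifiers, the last one
existential (`true`): `∃`, `∀∃`, `∃∀∃`, ... -/
def pattern : ℕ → List Bool
  | 0 => []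
  | n + 1 => (if n % 2 = 0 then true else false) :: pattern n

/-- A quantifier word has a given block pattern (blocks may be empty). -/
def HasPattern : List Bool → List Bool → Prop
  | [], w => w = []
  | q :: qs, w => ∃ (k : ℕ) (w' : List Bool), w = List.replicate k q ++ w' ∧ HasPattern qs w'

/-- `Th_Φ(F, π)` for the `n`-th standard fragment `Φ` of the three-sorted language with `ϖ`. -/
def valTheory (n : ℕ) (F : ValuedField) (π : F.K) : Set (Prenex 0 0 0) :=
  {φ | HasPattern (pattern n) φ.word ∧ φ.Holds F π Fin.elim0 Fin.elim0 Fin.elim0}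

/-- `Th_Φ(R)` for the `n`-th standard fragment `Φ` of the ring language. -/
def ringTheory (n : ℕ) (R : Type) [CommRing R] : Set (RingPrenex 0) :=
  {φ | HasPattern (pattern n) φ.word ∧ φ.Holds R Fin.elim0}

end Pool.Agent.Lib.MP_65f174_lc
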