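import Mathlib

set_option autoImplicit false

/-!
Henselianity of rings of power series with prescribed constant coefficients.
-/

namespace Pool.Agent.Lib.MP_65f174_lc

open Polynomial IsLocalRing

/-- If `V` embeds in `k⟦X⟧` as the ring of all series whose constant coefficient lies in a
henselian local subring `B` of the field `k`, then `V` is henselian. -/
theorem henselian_of_series {V B k : Type} [CommRing V] [IsLocalRing V] [CommRing B]
    [HenselianLocalRing B] [Field k] (α : V →+* PowerSeries k) (hα : Function.Injective α)
    (β : V →+* B) (j : B →+* k) (hj : Function.Injective j)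
    (h1 : ∀ x, PowerSeries.constantCoeff (α x) = j (β x))
    (h2 : ∀ c : PowerSeries k, (∃ b, j b = PowerSeries.constantCoeff c) → ∃ x, α x = c) :
    HenselianLocalRing V := by
  have hβ : ∀ x : V, IsUnit (β x) → IsUnit x := by
    intro x hx
    obtain ⟨b, hb⟩ := hx.exists_right_inv
    have hjb : j (β x) * j b = 1 := by rw [← map_mul, hb, map_one]
    have hne : PowerSeries.constantCoeff (α x) ≠ 0 := by
      rw [h1]
      exact left_ne_zero_of_mul_eq_one hjb
    have hu : IsUnit (α x) := by
      rw [PowerSeries.isUnit_iff_constantCoeff]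
      exact isUnit_iff_ne_zero.mpr hne
    obtain ⟨c, hc⟩ := hu.exists_right_inv
    have hcc : PowerSeries.constantCoeff (α x) * PowerSeries.constantCoeff c = 1 := by
      rw [← map_mul, hc, map_one]
    have hcb : j b = PowerSeries.constantCoeff c := by
      rw [h1] at hcc hne
      exact mul_left_cancel₀ hne (hjb.trans hcc.symm)
    obtain ⟨y, hy⟩ := h2 c ⟨b, hcb⟩
    apply IsUnit.of_mul_eq_one y
    apply hα
    rw [map_mul, hy, hc, map_one]
  constructor
  intro f hf a₀ hfa hfa'
  have hg1 : (f.map β).eval (β a₀) ∈ maximalIdeal B := by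
    rw [Polynomial.eval_map, Polynomial.eval₂_at_apply]
    rw [mem_maximalIdeal, mem_nonunits_iff] at hfa ⊢
    exact fun h => hfa (hβ _ h)
  have hg2 : IsUnit ((f.map β).derivative.eval (β a₀)) := by
    rw [Polynomial.derivative_map, Polynomial.eval_map, Polynomial.eval₂_at_apply]
    exact hfa'.map β
  obtain ⟨b, hb1, hb2⟩ := HenselianLocalRing.is_henselian (f.map β) (hf.map β) (β a₀) hg1 hg2
  -- the derivative at `b` is a unit
  have hb3 : IsUnit ((f.map β).derivative.eval b) := by
    by_contra hcon
    have h3 : (f.map β).derivative.eval b ∈ maximalIdeal B := by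
      rw [mem_maximalIdeal, mem_nonunits_iff]
      exact hcon
    have h4 : (f.map β).derivative.eval b - (f.map β).derivative.eval (β a₀) ∈
        maximalIdeal B :=
      (maximalIdeal B).mem_of_dvd (Polynomial.sub_dvd_eval_sub b (β a₀) _) hb2
    have h5 : (f.map β).derivative.eval (β a₀) ∈ maximalIdeal B := by
      have := (maximalIdeal B).sub_mem h3 h4
      simpa using this
    rw [mem_maximalIdeal, mem_nonunits_iff] at h5
    exact h5 hg2
  have hcomp : (PowerSeries.constantCoeff (R := k)).comp α = j.comp β := by
    ext x
    simpa using h1 x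
  have hev : ∀ (p : V[X]), PowerSeries.constantCoeff ((p.map α).eval (PowerSeries.C (j b))) =
      j ((p.map β).eval b) := by
    intro p
    rw [← Polynomial.eval₂_at_apply (PowerSeries.constantCoeff (R := k)), ← Polynomial.eval_map,
      Polynomial.map_map, hcomp, ← Polynomial.map_map, PowerSeries.constantCoeff_C,
      Polynomial.eval_map, Polynomial.eval₂_at_apply]
  have hF1 : (f.map α).eval (PowerSeries.C (j b)) ∈ Ideal.span {(PowerSeries.X : PowerSeries k)} := by
    rw [Ideal.mem_span_singleton, PowerSeries.X_dvd_iff, hev]
    rw [Polynomial.IsRoot.def] at hb1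
    rw [hb1, map_zero]
  have hF2 : IsUnit (Ideal.Quotient.mk (Ideal.span {(PowerSeries.X : PowerSeries k)})
      ((f.map α).derivative.eval (PowerSeries.C (j b)))) := by
    apply IsUnit.map
    rw [PowerSeries.isUnit_iff_constantCoeff, Polynomial.derivative_map, hev,
      ← Polynomial.derivative_map]
    exact hb3.map j
  obtain ⟨c, hc1, hc2⟩ := HenselianRing.is_henselian (I := Ideal.span {(PowerSeries.X : PowerSeries k)})
    (f.map α) (hf.map α) (PowerSeries.C (j b)) hF1 hF2
  have hcc : PowerSeries.constantCoeff c = j b := by
    rw [Ideal.mem_span_singleton, PowerSeries.X_dvd_iff, map_sub, PowerSeries.constantCoeff_C,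
      sub_eq_zero] at hc2
    exact hc2
  obtain ⟨x, hx⟩ := h2 c ⟨b, hcc.symm⟩
  refine ⟨x, ?_, ?_⟩
  · apply hα
    rw [map_zero, ← Polynomial.eval₂_at_apply, ← Polynomial.eval_map, hx]
    exact hc1
  · rw [mem_maximalIdeal, mem_nonunits_iff]
    intro hu
    have hxb : β x = b := by
      apply hj
      rw [← h1, hx, hcc]
    have := hu.map β
    rw [map_sub, hxb] at this
    rw [mem_maximalIdeal, mem_nonunits_iff] at hb2
    exact hb2 this

/-- A surjection from a local ring onto a field induces an isomorphism from its residue field. -/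
theorem residueField_equiv {V k : Type} [CommRing V] [IsLocalRing V] [Field k] (f : V →+* k)
    (hf : Function.Surjective f) : Nonempty (ResidueField V ≃+* k) := by
  have h : maximalIdeal V = RingHom.ker f := (IsLocalRing.ker_eq_maximalIdeal f hf).symm
  exact ⟨(Ideal.quotEquivOfEq h).trans (RingHom.quotientKerEquivOfSurjective hf)⟩

end Pool.Agent.Lib.MP_65f174_lc
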