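import Mathlib

set_option autoImplicit false

namespace Pool.Agent.Lib.MP_65f174_lc

/-- A `ℤ`-group, in the usual algebraic form: there is a smallest positive element `u`, and
modulo multiples of `u` every element is divisible by every `m ≥ 1`. -/
def IsZGroup (G : Type) [AddCommGroup G] [LinearOrder G] : Prop :=
  ∃ u : G, 0 < u ∧ (∀ x : G, 0 < x → u ≤ x) ∧
    ∀ m : ℕ, 1 ≤ m → ∀ x : G, ∃ y : G, ∃ j : ℕ, j < m ∧ x = m • y + j • u

end Pool.Agent.Lib.MP_65f174_lc
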