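import Pool.Agent.Lib.MP_65f174_lc.Defs
import Pool.Agent.Lib.MP_65f174_lc.ZGroup
import Pool.Agent.Lib.MP_65f174_lc.Hensel

set_option autoImplicit false

/-!
The valued fields `ℚ((t))` (value group `ℤ`) and `ℚ((s))((t))` (value group `ℤ ×ₗ ℤ`).
-/

namespace Pool.Agent.Lib.MP_65f174_lc

noncomputable section

open HahnSeries

/-! ### Laurent series and power series -/

theorem ofPowerSeries_coeff_zero {k : Type} [Field k] (p : PowerSeries k) :
    (ofPowerSeries ℤ k p).coeff 0 = PowerSeries.constantCoeff p := by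
  have := LaurentSeries.coeff_coe_powerSeries p 0
  simpa using this

theorem ofPowerSeries_coeff_neg {k : Type} [Field k] (p : PowerSeries k) (i : ℤ) (hi : i < 0) :
    (ofPowerSeries ℤ k p).coeff i = 0 := by
  rw [PowerSeries.coeff_coe]
  simp [hi]

theorem order_ofPowerSeries_nonneg {k : Type} [Field k] (p : PowerSeries k) :
    0 ≤ (ofPowerSeries ℤ k p).order := by
  by_contra h
  rw [not_le] at h
  have h0 : (ofPowerSeries ℤ k p) ≠ 0 := by
    intro h0
    rw [h0, order_zero] at h
    exact lt_irrefl _ h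
  have := ofPowerSeries_coeff_neg p _ h
  rw [← leadingCoeff_eq] at this
  exact (leadingCoeff_ne_zero.mpr h0) this

theorem exists_powerSeries {k : Type} [Field k] (x : LaurentSeries k) (hx : 0 ≤ x.order) :
    ∃ p, ofPowerSeries ℤ k p = x := by
  refine ⟨PowerSeries.X ^ x.order.toNat * x.powerSeriesPart, ?_⟩
  exact LaurentSeries.X_order_mul_powerSeriesPart (Int.toNat_of_nonneg hx)

/-- A ring of Laurent series without negative terms maps to power series. -/
theorem exists_hom {V k : Type} [CommRing V] [Field k] (ι : V →+* LaurentSeries k)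
    (hV : ∀ x, ∃ p, ofPowerSeries ℤ k p = ι x) :
    ∃ α : V →+* PowerSeries k, ∀ x, ofPowerSeries ℤ k (α x) = ι x := by
  choose a ha using hV
  refine ⟨{ toFun := a, map_one' := ?_, map_mul' := ?_, map_zero' := ?_, map_add' := ?_ }, ha⟩
  · apply ofPowerSeries_injective (Γ := ℤ) (R := k)
    rw [ha, map_one, map_one]
  · intro x y
    apply ofPowerSeries_injective (Γ := ℤ) (R := k)
    rw [ha, map_mul, map_mul, ha, ha]
  · apply ofPowerSeries_injective (Γ := ℤ) (R := k)
    rw [ha, map_zero, map_zero]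
  · intro x y
    apply ofPowerSeries_injective (Γ := ℤ) (R := k)
    rw [ha, map_add, map_add, ha, ha]

/-! ### The field `ℚ((t))` -/

/-- The valued field `ℚ((t))` with the `t`-adic valuation. -/
def fieldL : ValuedField where
  K := LaurentSeries ℚ
  G := ℤ
  v := addVal ℤ ℚ
  surj g := ⟨single g 1, by
    rw [addVal_apply, orderTop_single one_ne_zero]⟩

theorem mem_ringL (x : LaurentSeries ℚ) : x ∈ fieldL.ring ↔ 0 ≤ x.order := by
  change (0 : WithTop ℤ) ≤ addVal ℤ ℚ x ↔ _
  by_cases hx : x = 0
  · rw [hx, AddValuation.map_zero, order_zero]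
    simp
  · rw [addVal_apply_of_ne hx]
    norm_cast

theorem exists_homL : ∃ α : fieldL.ring →+* PowerSeries ℚ,
    ∀ x : fieldL.ring, ofPowerSeries ℤ ℚ (α x) = x.1 :=
  exists_hom (V := fieldL.ring) (k := ℚ) fieldL.ring.subtype
    fun x => exists_powerSeries _ ((mem_ringL _).mp x.2)

/-- The embedding of the valuation ring of `ℚ((t))` in `ℚ⟦X⟧`. -/
def homL : fieldL.ring →+* PowerSeries ℚ := exists_homL.choose

theorem homL_spec (x : fieldL.ring) : ofPowerSeries ℤ ℚ (homL x) = x.1 :=
  exists_homL.choose_spec x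

theorem homL_injective : Function.Injective homL := by
  intro x y h
  apply Subtype.ext
  exact (homL_spec x).symm.trans ((congrArg _ h).trans (homL_spec y))

theorem homL_surjective : Function.Surjective homL := by
  intro p
  refine ⟨⟨ofPowerSeries ℤ ℚ p, (mem_ringL _).mpr (order_ofPowerSeries_nonneg p)⟩, ?_⟩
  apply ofPowerSeries_injective (Γ := ℤ) (R := ℚ)
  exact homL_spec _

theorem henselianL : HenselianLocalRing fieldL.ring :=
  henselian_of_series (B := ℚ) homL homL_injective
    ((PowerSeries.constantCoeff (R := ℚ)).comp homL) (RingHom.id ℚ) Function.injective_id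
    (fun _ => rfl) (fun c _ => homL_surjective c)

/-- The constant coefficient on the valuation ring of `ℚ((t))`. -/
def resL : fieldL.ring →+* ℚ := (PowerSeries.constantCoeff (R := ℚ)).comp homL

theorem resL_surjective : Function.Surjective resL := by
  intro q
  obtain ⟨x, hx⟩ := homL_surjective (PowerSeries.C q)
  refine ⟨x, ?_⟩
  change PowerSeries.constantCoeff (homL x) = q
  rw [hx, PowerSeries.constantCoeff_C]

/-! ### The field `ℚ((s))((t))` -/

/-- The value of a nonzero element of `ℚ((s))((t))`. -/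
def valLex (x : LaurentSeries (LaurentSeries ℚ)) : ℤ ×ₗ ℤ :=
  toLex (x.order, x.leadingCoeff.order)

theorem valLex_mul (x y : LaurentSeries (LaurentSeries ℚ)) (hx : x ≠ 0) (hy : y ≠ 0) :
    valLex (x * y) = valLex x + valLex y := by
  unfold valLex
  rw [order_mul hx hy, leadingCoeff_mul,
    order_mul (leadingCoeff_ne_zero.mpr hx) (leadingCoeff_ne_zero.mpr hy)]
  rfl

theorem valLex_add_aux (x y : LaurentSeries (LaurentSeries ℚ)) (hx : x ≠ 0)
    (hxy : x + y ≠ 0) (h : x.order ≤ y.order) :
    min (valLex x) (valLex y) ≤ valLex (x + y) := by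
  have h1 : x.order ≤ (x + y).order := by
    have := min_order_le_order_add hxy
    rwa [min_eq_left h] at this
  rcases h.lt_or_eq with h2 | h2
  · apply min_le_of_left_le
    have h3 : (x + y).coeff x.order = x.leadingCoeff := by
      rw [coeff_add, coeff_eq_zero_of_lt_order h2, add_zero, leadingCoeff_eq]
    have h4 : (x + y).order ≤ x.order := by
      apply order_le_of_coeff_ne_zero
      rw [h3]
      exact leadingCoeff_ne_zero.mpr hx
    have h5 : (x + y).order = x.order := le_antisymm h4 h1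
    unfold valLex
    rw [leadingCoeff_eq (x := x + y), h5, h3]
  · rcases h1.lt_or_eq with h3 | h3
    · apply min_le_of_left_le
      unfold valLex
      rw [Prod.Lex.toLex_le_toLex]
      exact Or.inl h3
    · have h4 : (x + y).leadingCoeff = x.leadingCoeff + y.leadingCoeff := by
        rw [leadingCoeff_eq, ← h3, coeff_add, leadingCoeff_eq, leadingCoeff_eq, h2]
      have h5 : x.leadingCoeff + y.leadingCoeff ≠ 0 := by
        rw [← h4]
        exact leadingCoeff_ne_zero.mpr hxy
      have h6 := min_order_le_order_add h5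
      unfold valLex
      rw [h4, ← h3, ← h2]
      rcases le_total x.leadingCoeff.order y.leadingCoeff.order with h7 | h7
      · apply min_le_of_left_le
        rw [min_eq_left h7] at h6
        rw [Prod.Lex.toLex_le_toLex]
        exact Or.inr ⟨rfl, h6⟩
      · apply min_le_of_right_le
        rw [min_eq_right h7] at h6
        rw [Prod.Lex.toLex_le_toLex]
        exact Or.inr ⟨rfl, h6⟩

theorem valLex_add (x y : LaurentSeries (LaurentSeries ℚ)) (hx : x ≠ 0) (hy : y ≠ 0)
    (hxy : x + y ≠ 0) : min (valLex x) (valLex y) ≤ valLex (x + y) := by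
  rcases le_total x.order y.order with h | h
  · exact valLex_add_aux x y hx hxy h
  · rw [min_comm, add_comm]
    rw [add_comm] at hxy
    exact valLex_add_aux y x hy hxy h

open Classical in
/-- The valuation on `ℚ((s))((t))`: first the order in `t`, then the order in `s` of the leading
coefficient. -/
def valK : AddValuation (LaurentSeries (LaurentSeries ℚ)) (WithTop (ℤ ×ₗ ℤ)) :=
  AddValuation.of (fun x => if x = 0 then ⊤ else ((valLex x : ℤ ×ₗ ℤ) : WithTop (ℤ ×ₗ ℤ)))
    (by simp)
    (by
      rw [if_neg one_ne_zero]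
      have : valLex 1 = 0 := by
        unfold valLex
        rw [order_one, leadingCoeff_one, order_one]
        rfl
      rw [this]
      rfl)
    (by
      intro x y
      by_cases hx : x = 0
      · simp [hx]
      by_cases hy : y = 0
      · simp [hy]
      by_cases hxy : x + y = 0
      · simp [hxy]
      rw [if_neg hx, if_neg hy, if_neg hxy]
      exact_mod_cast valLex_add x y hx hy hxy)
    (by
      intro x y
      by_cases hx : x = 0
      · simp [hx]
      by_cases hy : y = 0
      · simp [hy]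
      rw [if_neg hx, if_neg hy, if_neg (mul_ne_zero hx hy), valLex_mul x y hx hy]
      rfl)

theorem valK_apply_of_ne (x : LaurentSeries (LaurentSeries ℚ)) (hx : x ≠ 0) :
    valK x = ((valLex x : ℤ ×ₗ ℤ) : WithTop (ℤ ×ₗ ℤ)) := by
  unfold valK
  rw [AddValuation.of_apply, if_neg hx]

/-- The valued field `ℚ((s))((t))` with its valuation of rank two. -/
def fieldK : ValuedField where
  K := LaurentSeries (LaurentSeries ℚ)
  G := ℤ ×ₗ ℤ
  v := valK
  surj g := ⟨single (ofLex g).1 (single (ofLex g).2 1), by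
    have h1 : (single (ofLex g).2 (1 : ℚ)) ≠ 0 := single_ne_zero one_ne_zero
    rw [valK_apply_of_ne _ (single_ne_zero h1)]
    unfold valLex
    rw [leadingCoeff_of_single, order_single h1, order_single one_ne_zero]
    rfl⟩

theorem mem_ringK (x : LaurentSeries (LaurentSeries ℚ)) :
    x ∈ fieldK.ring ↔ 0 ≤ x.order ∧ 0 ≤ (x.coeff 0).order := by
  change (0 : WithTop (ℤ ×ₗ ℤ)) ≤ valK x ↔ _
  by_cases hx : x = 0
  · rw [hx, AddValuation.map_zero, order_zero, coeff_zero, order_zero]
    simp
  · rw [valK_apply_of_ne x hx]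
    have h0 : ((0 : WithTop (ℤ ×ₗ ℤ)) ≤ ((valLex x : ℤ ×ₗ ℤ) : WithTop (ℤ ×ₗ ℤ))) ↔
        (toLex ((0 : ℤ), (0 : ℤ)) ≤ valLex x) := by
      rw [← WithTop.coe_zero, WithTop.coe_le_coe]
      rfl
    rw [h0]
    unfold valLex
    rw [Prod.Lex.toLex_le_toLex]
    simp only
    constructor
    · rintro (h | ⟨h1, h2⟩)
      · refine ⟨h.le, ?_⟩
        rw [coeff_eq_zero_of_lt_order h, order_zero]
      · refine ⟨h1.le, ?_⟩
        rw [leadingCoeff_eq, ← h1] at h2
        exact h2
    · rintro ⟨h1, h2⟩
      rcases h1.lt_or_eq with h3 | h3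
      · exact Or.inl h3
      · refine Or.inr ⟨h3, ?_⟩
        rw [leadingCoeff_eq, ← h3]
        exact h2

theorem exists_homK : ∃ α : fieldK.ring →+* PowerSeries (LaurentSeries ℚ),
    ∀ x : fieldK.ring, ofPowerSeries ℤ (LaurentSeries ℚ) (α x) = x.1 :=
  exists_hom (V := fieldK.ring) (k := LaurentSeries ℚ) fieldK.ring.subtype
    fun x => exists_powerSeries _ ((mem_ringK _).mp x.2).1

/-- The embedding of the valuation ring of `ℚ((s))((t))` in `ℚ((s))⟦X⟧`. -/
def homK : fieldK.ring →+* PowerSeries (LaurentSeries ℚ) := exists_homK.choose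

theorem homK_spec (x : fieldK.ring) : ofPowerSeries ℤ (LaurentSeries ℚ) (homK x) = x.1 :=
  exists_homK.choose_spec x

theorem homK_injective : Function.Injective homK := by
  intro x y h
  apply Subtype.ext
  exact (homK_spec x).symm.trans ((congrArg _ h).trans (homK_spec y))

theorem constantCoeff_homK_mem (x : fieldK.ring) :
    PowerSeries.constantCoeff (homK x) ∈ fieldL.ring := by
  rw [mem_ringL, ← ofPowerSeries_coeff_zero, homK_spec]
  exact ((mem_ringK _).mp x.2).2

/-- The map from the valuation ring of `ℚ((s))((t))` to the valuation ring of `ℚ((s))`. -/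
def homKL : fieldK.ring →+* fieldL.ring :=
  ((PowerSeries.constantCoeff (R := LaurentSeries ℚ)).comp homK).codRestrict
    fieldL.ring constantCoeff_homK_mem

theorem homK_surjective (c : PowerSeries (LaurentSeries ℚ))
    (hc : PowerSeries.constantCoeff c ∈ fieldL.ring) : ∃ x, homK x = c := by
  refine ⟨⟨ofPowerSeries ℤ _ c, (mem_ringK _).mpr ⟨order_ofPowerSeries_nonneg c, ?_⟩⟩, ?_⟩
  · rw [ofPowerSeries_coeff_zero]
    exact (mem_ringL _).mp hc
  · apply ofPowerSeries_injective (Γ := ℤ) (R := LaurentSeries ℚ)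
    exact homK_spec _

theorem henselianK : HenselianLocalRing fieldK.ring := by
  have := henselianL
  refine henselian_of_series (k := LaurentSeries ℚ) homK homK_injective homKL
    fieldL.ring.subtype Subtype.val_injective (fun _ => rfl) ?_
  rintro c ⟨b, hb⟩
  apply homK_surjective
  rw [← hb]
  exact b.2

theorem exists_homKL (c : LaurentSeries ℚ) (hc : c ∈ fieldL.ring) :
    ∃ x, homKL x = ⟨c, hc⟩ := by
  have h : PowerSeries.constantCoeff (PowerSeries.C c) = c := PowerSeries.constantCoeff_C c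
  obtain ⟨x, hx⟩ := homK_surjective (PowerSeries.C c) (by rw [h]; exact hc)
  refine ⟨x, Subtype.ext ?_⟩
  change PowerSeries.constantCoeff (homK x) = c
  rw [hx, h]

theorem homKL_surjective : Function.Surjective homKL := fun b => exists_homKL b.1 b.2

/-! ### Residue fields -/

theorem residueL : Nonempty (fieldL.Res ≃+* ℚ) := residueField_equiv resL resL_surjective

theorem residueK : Nonempty (fieldK.Res ≃+* ℚ) :=
  residueField_equiv (resL.comp homKL) (resL_surjective.comp homKL_surjective)

theorem residue_equiv : Nonempty (fieldK.Res ≃+* fieldL.Res) := by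
  obtain ⟨f⟩ := residueK
  obtain ⟨g⟩ := residueL
  exact ⟨f.trans g.symm⟩

theorem charZero_of_equiv_rat {R : Type} [CommRing R] (h : Nonempty (R ≃+* ℚ)) : CharZero R := by
  obtain ⟨f⟩ := h
  exact charZero_of_injective_ringHom (f := f.symm.toRingHom) f.symm.injective

theorem equicharL : fieldL.IsEquicharZero := by
  refine ⟨?_, charZero_of_equiv_rat residueL⟩
  change CharZero (LaurentSeries ℚ)
  exact charZero_of_injective_ringHom (HahnSeries.C_injective (Γ := ℤ) (R := ℚ))

theorem equicharK : fieldK.IsEquicharZero := by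
  refine ⟨?_, charZero_of_equiv_rat residueK⟩
  change CharZero (LaurentSeries (LaurentSeries ℚ))
  have : CharZero (LaurentSeries ℚ) :=
    charZero_of_injective_ringHom (HahnSeries.C_injective (Γ := ℤ) (R := ℚ))
  exact charZero_of_injective_ringHom (HahnSeries.C_injective (Γ := ℤ) (R := LaurentSeries ℚ))

/-! ### Uniformizers and value groups -/

/-- The uniformizer `t` of `ℚ((t))`. -/
def unifL : fieldL.K := (single 1 1 : LaurentSeries ℚ)

/-- The uniformizer `s` of `ℚ((s))((t))`. -/
def unifK : fieldK.K := (single 0 (single 1 1) : LaurentSeries (LaurentSeries ℚ))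

theorem v_unifL : fieldL.v unifL = ((1 : ℤ) : WithTop ℤ) := by
  change addVal ℤ ℚ (single 1 1) = _
  rw [addVal_apply, orderTop_single one_ne_zero]

theorem v_unifK : fieldK.v unifK = ((toLex (0, 1) : ℤ ×ₗ ℤ) : WithTop (ℤ ×ₗ ℤ)) := by
  change valK (single 0 (single 1 1)) = _
  have h1 : (single (1 : ℤ) (1 : ℚ)) ≠ 0 := single_ne_zero one_ne_zero
  rw [valK_apply_of_ne _ (single_ne_zero h1)]
  unfold valLex
  rw [leadingCoeff_of_single, order_single h1, order_single one_ne_zero]

theorem isUniformizerL : fieldL.IsUniformizer unifL := by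
  refine ⟨?_, ?_, ?_⟩
  · rw [v_unifL]
    change ((0 : ℤ) : WithTop ℤ) < ((1 : ℤ) : WithTop ℤ)
    rw [WithTop.coe_lt_coe]
    exact one_pos
  · rw [v_unifL]
    exact WithTop.coe_ne_top
  · intro x hx
    rw [v_unifL]
    generalize fieldL.v x = y at hx
    change WithTop ℤ at y
    induction y with
    | top => exact le_top
    | coe y =>
      change ((0 : ℤ) : WithTop ℤ) < (y : WithTop ℤ) at hx
      change ((1 : ℤ) : WithTop ℤ) ≤ (y : WithTop ℤ)
      rw [WithTop.coe_lt_coe] at hx
      rw [WithTop.coe_le_coe]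
      exact hx

theorem isUniformizerK : fieldK.IsUniformizer unifK := by
  refine ⟨?_, ?_, ?_⟩
  · rw [v_unifK]
    change ((toLex (0, 0) : ℤ ×ₗ ℤ) : WithTop (ℤ ×ₗ ℤ)) < _
    rw [WithTop.coe_lt_coe, Prod.Lex.toLex_lt_toLex]
    exact Or.inr ⟨rfl, one_pos⟩
  · rw [v_unifK]
    exact WithTop.coe_ne_top
  · intro x hx
    rw [v_unifK]
    generalize fieldK.v x = y at hx
    change WithTop (ℤ ×ₗ ℤ) at y
    induction y with
    | top => exact le_top
    | coe y =>
      change ((toLex (0, 0) : ℤ ×ₗ ℤ) : WithTop (ℤ ×ₗ ℤ)) < (y : WithTop (ℤ ×ₗ ℤ)) at hx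
      change ((toLex (0, 1) : ℤ ×ₗ ℤ) : WithTop (ℤ ×ₗ ℤ)) ≤ (y : WithTop (ℤ ×ₗ ℤ))
      rw [WithTop.coe_lt_coe] at hx
      rw [WithTop.coe_le_coe]
      obtain ⟨⟨a, b⟩, rfl⟩ := toLex.surjective y
      rw [Prod.Lex.toLex_lt_toLex] at hx
      rw [Prod.Lex.toLex_le_toLex]
      rcases hx with h | ⟨h1, h2⟩
      · exact Or.inl h
      · exact Or.inr ⟨h1, h2⟩

theorem isZGroup_int : IsZGroup ℤ := by
  refine ⟨1, one_pos, fun x hx => hx, fun m hm x => ?_⟩
  refine ⟨x / m, (x % m).toNat, ?_, ?_⟩
  · have h1 : x % m < m := Int.emod_lt_of_pos x (by exact_mod_cast hm)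
    have h2 : 0 ≤ x % m := Int.emod_nonneg x (by positivity)
    omega
  · have h2 : 0 ≤ x % m := Int.emod_nonneg x (by positivity)
    have h3 := Int.emod_add_mul_ediv x m
    simp only [nsmul_eq_mul, mul_one]
    rw [Int.toNat_of_nonneg h2]
    linarith

theorem not_isZGroup_lex : ¬ IsZGroup (ℤ ×ₗ ℤ) := by
  rintro ⟨u, hu0, hu1, h⟩
  have hu : u ≤ toLex (0, 1) := by
    apply hu1
    change (toLex (0, 0) : ℤ ×ₗ ℤ) < _
    rw [Prod.Lex.toLex_lt_toLex]
    exact Or.inr ⟨rfl, one_pos⟩
  obtain ⟨⟨a, b⟩, rfl⟩ := toLex.surjective u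
  have ha : a = 0 := by
    change (toLex (0, 0) : ℤ ×ₗ ℤ) < _ at hu0
    rw [Prod.Lex.toLex_lt_toLex] at hu0
    rw [Prod.Lex.toLex_le_toLex] at hu
    simp only at hu0 hu
    omega
  obtain ⟨y, j, _, hy⟩ := h 2 (by norm_num) (toLex (1, 0))
  obtain ⟨⟨c, d⟩, rfl⟩ := toLex.surjective y
  have h1 := congrArg (fun z : ℤ ×ₗ ℤ => (ofLex z).1) hy
  change (1 : ℤ) = 2 • c + j • a at h1
  rw [ha, smul_zero, add_zero] at h1
  simp only [nsmul_eq_mul] at h1
  push_cast at h1
  omega

end

end Pool.Agent.Lib.MP_65f174_lc
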