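import Pool.Agent.Lib.MP_65f174_lc.Defs
import Pool.Agent.Lib.MP_65f174_lc.ZGroup

set_option autoImplicit false

/-!
Invariance of truth of ring sentences under isomorphism; the separating sentence.
-/

namespace Pool.Agent.Lib.MP_65f174_lc

/-! ### Isomorphism invariance -/

theorem RingTerm.eval_equiv {R S : Type} [CommRing R] [CommRing S] (f : R ≃+* S) {a : ℕ}
    (e : Fin a → R) (t : RingTerm a) : t.eval (f ∘ e) = f (t.eval e) := by
  induction t with
  | var i => rfl
  | zero => simp [RingTerm.eval]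
  | one => simp [RingTerm.eval]
  | neg t ih => simp [RingTerm.eval, ih]
  | add t u iht ihu => simp [RingTerm.eval, iht, ihu]
  | mul t u iht ihu => simp [RingTerm.eval, iht, ihu]

theorem RingQF.holds_equiv {R S : Type} [CommRing R] [CommRing S] (f : R ≃+* S) {a : ℕ}
    (e : Fin a → R) (φ : RingQF a) : φ.Holds (f ∘ e) ↔ φ.Holds e := by
  induction φ with
  | eq t u => simp [RingQF.Holds, RingTerm.eval_equiv]
  | not φ ih => simp [RingQF.Holds, ih]
  | and φ ψ ih1 ih2 => simp [RingQF.Holds, ih1, ih2]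
  | or φ ψ ih1 ih2 => simp [RingQF.Holds, ih1, ih2]

theorem RingPrenex.holds_equiv {R S : Type} [CommRing R] [CommRing S] (f : R ≃+* S) {a : ℕ}
    (φ : RingPrenex a) : ∀ e : Fin a → R, φ.Holds S (f ∘ e) ↔ φ.Holds R e := by
  induction φ with
  | qf φ => exact fun e => RingQF.holds_equiv f e φ
  | ex φ ih =>
    intro e
    constructor
    · rintro ⟨y, hy⟩
      refine ⟨f.symm y, (ih _).mp ?_⟩
      rw [Fin.comp_cons f]
      simpa using hy
    · rintro ⟨x, hx⟩
      refine ⟨f x, ?_⟩
      rw [← Fin.comp_cons]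
      exact (ih _).mpr hx
  | all φ ih =>
    intro e
    constructor
    · intro h x
      apply (ih _).mp
      rw [Fin.comp_cons f]
      exact h (f x)
    · intro h y
      have := (ih _).mpr (h (f.symm y))
      rw [Fin.comp_cons f] at this
      simpa using this

/-- Isomorphic rings have the same theory, fragment by fragment. -/
theorem ringTheory_eq {R S : Type} [CommRing R] [CommRing S] (f : R ≃+* S) (n : ℕ) :
    ringTheory n R = ringTheory n S := by
  ext φ
  have h := RingPrenex.holds_equiv f φ Fin.elim0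
  have he : (f ∘ Fin.elim0 : Fin 0 → S) = Fin.elim0 := funext fun i => i.elim0
  rw [he] at h
  exact and_congr_right fun _ => h.symm

/-! ### Patterns -/

theorem hasPattern_succ (n : ℕ) (w : List Bool) (h : HasPattern (pattern n) w) :
    HasPattern (pattern (n + 1)) w :=
  ⟨0, w, by simp, h⟩

theorem hasPattern_ea : ∀ n : ℕ, 3 ≤ n → HasPattern (pattern n) [true, false] := by
  intro n hn
  induction n, hn using Nat.le_induction with
  | base =>
    refine ⟨1, [false], by simp, 1, [], by simp, 0, [], by simp, rfl⟩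
  | succ n _ ih => exact hasPattern_succ n _ ih

/-! ### The sentence -/

/-- The term `k t`. -/
def nsmulTerm {a c : ℕ} : ℕ → GTerm a c → GTerm a c
  | 0, _ => .zero
  | k + 1, t => .add (nsmulTerm k t) t

theorem nsmulTerm_eval (F : ValuedField) (π : F.K) {a c : ℕ} (e : Fin a → F.K)
    (g : Fin c → WithTop F.G) (k : ℕ) (t : GTerm a c) :
    (nsmulTerm k t).eval F π e g = k • t.eval F π e g := by
  induction k with
  | zero => simp [nsmulTerm, GTerm.eval]
  | succ k ih => simp [nsmulTerm, GTerm.eval, ih, succ_nsmul]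

/-- The formula `x ≠ ∞ ∧ ⋀_{i < j} x ≠ m y + i v ϖ`. -/
def notMul (m : ℕ) : ℕ → QF 0 0 2
  | 0 => .not (.eqG (.var 1) .infty)
  | j + 1 => .and (notMul m j)
      (.not (.eqG (.var 1) (.add (nsmulTerm m (.var 0)) (nsmulTerm j (.val .unif)))))

theorem notMul_holds (F : ValuedField) (π : F.K) (e : Fin 0 → F.K) (r : Fin 0 → F.Res)
    (g : Fin 2 → WithTop F.G) (m j : ℕ) : (notMul m j).Holds F π e r g ↔
      g 1 ≠ ⊤ ∧ ∀ i < j, g 1 ≠ m • g 0 + i • F.v π := by
  induction j with
  | zero => simp [notMul, QF.Holds, GTerm.eval]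
  | succ j ih =>
    simp only [notMul, QF.Holds, ih, GTerm.eval, nsmulTerm_eval, FTerm.eval]
    constructor
    · rintro ⟨⟨h1, h2⟩, h3⟩
      refine ⟨h1, fun i hi => ?_⟩
      rcases Nat.lt_succ_iff_lt_or_eq.mp hi with h | h
      · exact h2 i h
      · rw [h]
        exact h3
    · rintro ⟨h1, h2⟩
      exact ⟨⟨h1, fun i hi => h2 i (Nat.lt_succ_of_lt hi)⟩, h2 j (Nat.lt_succ_self j)⟩

/-- The sentence `∃ x ∀ y (x ≠ ∞ ∧ ⋀_{i < m} x ≠ m y + i v ϖ)`, with `x`, `y` of the value
group sort. -/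
def divSentence (m : ℕ) : Prenex 0 0 0 := .exG (.allG (.qf (notMul m m)))

theorem divSentence_holds (F : ValuedField) (π : F.K) (m : ℕ) :
    (divSentence m).Holds F π Fin.elim0 Fin.elim0 Fin.elim0 ↔
      ∃ x : WithTop F.G, ∀ y : WithTop F.G, x ≠ ⊤ ∧ ∀ i < m, x ≠ m • y + i • F.v π := by
  unfold divSentence
  simp only [Prenex.Holds, notMul_holds]
  rfl

/-- The value of a uniformizer is the smallest positive element. -/
theorem exists_unit {F : ValuedField} {π : F.K} (h : F.IsUniformizer π) :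
    ∃ u : F.G, F.v π = (u : WithTop F.G) ∧ 0 < u ∧ ∀ x : F.G, 0 < x → u ≤ x := by
  obtain ⟨h1, h2, h3⟩ := h
  obtain ⟨u, hu⟩ := WithTop.ne_top_iff_exists.mp h2
  refine ⟨u, hu.symm, ?_, ?_⟩
  · rw [← hu] at h1
    exact_mod_cast h1
  · intro x hx
    obtain ⟨y, hy⟩ := F.surj x
    have := h3 y (by rw [hy]; exact_mod_cast hx)
    rw [hy, ← hu] at this
    exact_mod_cast this

/-- If the value group of `F` is not a `ℤ`-group then one of the sentences holds in `F`. -/
theorem exists_divSentence {F : ValuedField} {π : F.K} (h : F.IsUniformizer π)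
    (hG : ¬ IsZGroup F.G) :
    ∃ m : ℕ, 1 ≤ m ∧ (divSentence m).Holds F π Fin.elim0 Fin.elim0 Fin.elim0 := by
  obtain ⟨u, hu, hu0, hu1⟩ := exists_unit h
  by_contra hcon
  apply hG
  refine ⟨u, hu0, hu1, fun m hm x => ?_⟩
  by_contra hx
  apply hcon
  refine ⟨m, hm, (divSentence_holds F π m).mpr ⟨(x : WithTop F.G), fun y => ⟨WithTop.coe_ne_top, ?_⟩⟩⟩
  intro i hi heq
  rw [hu] at heq
  induction y with
  | top =>
    obtain ⟨m', rfl⟩ : ∃ m', m = m' + 1 := ⟨m - 1, by omega⟩
    rw [succ_nsmul, WithTop.add_top, WithTop.top_add] at heq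
    exact WithTop.coe_ne_top heq
  | coe y =>
    apply hx
    refine ⟨y, i, hi, ?_⟩
    exact_mod_cast heq

/-- If the value group of `F` is a `ℤ`-group then the sentences fail in `F`. -/
theorem not_divSentence {F : ValuedField} {π : F.K} (h : F.IsUniformizer π)
    (hG : IsZGroup F.G) (m : ℕ) (hm : 1 ≤ m) :
    ¬ (divSentence m).Holds F π Fin.elim0 Fin.elim0 Fin.elim0 := by
  obtain ⟨u, hu, hu0, hu1⟩ := exists_unit h
  obtain ⟨w, hw0, hw1, hw2⟩ := hG
  have huw : u = w := le_antisymm (hu1 w hw0) (hw1 u hu0)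
  rw [divSentence_holds]
  rintro ⟨x, hx⟩
  have hxt := (hx 0).1
  obtain ⟨x', rfl⟩ := WithTop.ne_top_iff_exists.mp hxt
  obtain ⟨y, j, hj, hxy⟩ := hw2 m hm x'
  apply (hx (y : WithTop F.G)).2 j hj
  rw [hu, huw, hxy]
  push_cast
  rfl

theorem divSentence_word (m : ℕ) : (divSentence m).word = [true, false] := rfl

/-- Transfer fails for every fragment with at least three blocks if the first value group is not
a `ℤ`-group. -/
theorem not_transfer {K L : ValuedField} {πK : K.K} {πL : L.K} (hK : K.IsUniformizer πK)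
    (hL : L.IsUniformizer πL) (hKG : ¬ IsZGroup K.G) (hLG : IsZGroup L.G) (n : ℕ) (hn : 3 ≤ n) :
    ¬ valTheory n K πK ⊆ valTheory n L πL := by
  intro hsub
  obtain ⟨m, hm, h⟩ := exists_divSentence hK hKG
  have h1 : divSentence m ∈ valTheory n K πK := by
    refine ⟨?_, h⟩
    rw [divSentence_word]
    exact hasPattern_ea n hn
  exact not_divSentence hL hLG m hm (hsub h1).2

end Pool.Agent.Lib.MP_65f174_lc
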